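import Pool.Agent.Lib.MP_7daf54_al.Main

set_option autoImplicit false

namespace Pool.Agent.Results.MP_7daf54_al.DominatingLimits

section

variable {G H : Type} [Group G] [Group H] {k : ℕ}

/-- The value of a word in the `k` letters `S i` and their inverses: the pair `(i, true)` stands for
`S i` and `(i, false)` for its inverse. -/
def evalW (S : Fin k → G) (w : List (Fin k × Bool)) : G :=
  (w.map fun q => if q.2 then S q.1 else (S q.1)⁻¹).prod

/-- The tuple `S` generates the group. -/
def Generates (S : Fin k → G) : Prop := Subgroup.closure (Set.range S) = ⊤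

/-- The `k`-marked groups `(G, S n)` converge to `(H, T)`: for every `R`, for all large `n`, a word
of length at most `R` is trivial in `(G, S n)` exactly when it is trivial in `(H, T)`. -/
def Converges (S : ℕ → Fin k → G) (T : Fin k → H) : Prop :=
  ∀ R : ℕ, ∃ N : ℕ, ∀ n, N ≤ n → ∀ w : List (Fin k × Bool), w.length ≤ R →
    (evalW (S n) w = 1 ↔ evalW T w = 1)

/-- The growth function: the number of elements which are values of words of length at most `n`. -/
noncomputable def growth (S : Fin k → G) (n : ℕ) : ℕ :=
  {g : G | ∃ w : List (Fin k × Bool), w.length ≤ n ∧ evalW S w = g}.ncard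

end

/-- `G` preforms `H`: for some `k`, some generating `k`-tuple of `H` is the limit of a sequence of
generating `k`-tuples of `G`. -/
def Preforms (G H : Type) [Group G] [Group H] : Prop :=
  ∃ (k : ℕ) (S : ℕ → Fin k → G) (T : Fin k → H), (∀ n, Generates (S n)) ∧ Generates T ∧
    Converges S T

/-- `f` is subexponential. -/
def Subexp (f : ℕ → ℕ) : Prop :=
  ∀ ε : ℝ, 0 < ε → ∃ N : ℕ, ∀ n, N ≤ n → (f n : ℝ) ≤ Real.exp (ε * n)

/-- `f` is not bounded by a polynomial. -/
def NonPoly (f : ℕ → ℕ) : Prop := ∀ C d : ℕ, ∃ n : ℕ, C * (n + 1) ^ d < f n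

/-- `f ≼ g`: for some `C`, `f n ≤ g (C n)` for all `n`. -/
def Dominated (f g : ℕ → ℕ) : Prop := ∃ C : ℕ, ∀ n, f n ≤ g (C * n)

theorem result : ∃ (G : Type) (_ : Group G), (∃ (k : ℕ) (x : Fin k → G), Generates x) ∧
    -- every function bounded by an exponential function is dominated by the growth of a limit of
    -- `G` of non-polynomial growth, of subexponential growth if the function is subexponential
    (∀ (f : ℕ → ℕ) (K : ℕ), (∀ n, f n ≤ K ^ n) →
      ∃ (H : Type) (_ : Group H) (k : ℕ) (T : Fin k → H), Generates T ∧ Preforms G H ∧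
        Dominated f (growth T) ∧ NonPoly (growth T) ∧ (Subexp f → Subexp (growth T))) ∧
    -- in particular the growth of every finitely generated group
    ∀ (A : Type) [Group A] (j : ℕ) (a : Fin j → A), Generates a →
      ∃ (H : Type) (_ : Group H) (k : ℕ) (T : Fin k → H), Generates T ∧ Preforms G H ∧
        Dominated (growth a) (growth T) ∧ NonPoly (growth T) ∧
          (Subexp (growth a) → Subexp (growth T)) := by
  have key : ∀ (f : ℕ → ℕ) (K : ℕ), (∀ n, f n ≤ K ^ n) →
      ∃ (H : Type) (_ : Group H) (k : ℕ) (T : Fin k → H), Generates T ∧ Preforms MP7daf.Gs H ∧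
        Dominated f (growth T) ∧ NonPoly (growth T) ∧ (Subexp f → Subexp (growth T)) := by
    intro f K hK
    obtain ⟨H, hH, k, T, h1, h2, h3, h4, h5⟩ := MP7daf.exists_dominating f K hK
    exact ⟨H, hH, k, T, h1, h2, h5, h3, h4⟩
  refine ⟨MP7daf.Gs, inferInstance, MP7daf.Gs_fg, key, ?_⟩
  intro A _ j a _
  exact key (growth a) (2 * j + 1) (MP7daf.growth_le a)

end Pool.Agent.Results.MP_7daf54_al.DominatingLimits
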