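import Pool.Agent.Lib.MP_7daf54_al.Indep

set_option autoImplicit false

namespace Pool.Agent.Results.MP_7daf54_al.IncomparableLimits

section

variable {G H : Type} [Group G] [Group H] {k : ℕ}

/-- The value of a word in the `k` letters `S i` and their inverses: the pair `(i, true)` stands for
`S i` and `(i, false)` for its inverse. -/
def evalW (S : Fin k → G) (w : List (Fin k × Bool)) : G :=
  (w.map fun q => if q.2 then S q.1 else (S q.1)⁻¹).prod

/-- The tuple `S` generates the group. -/
def Generates (S : Fin k → G) : Prop := Subgroup.closure (Set.range S) = ⊤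

/-- The `k`-marked groups `(G, S n)` converge to `(H, T)`: for every `R`, for all large `n`, a word
of length at most `R` is trivial in `(G, S n)` exactly when it is trivial in `(H, T)`. -/
def Converges (S : ℕ → Fin k → G) (T : Fin k → H) : Prop :=
  ∀ R : ℕ, ∃ N : ℕ, ∀ n, N ≤ n → ∀ w : List (Fin k × Bool), w.length ≤ R →
    (evalW (S n) w = 1 ↔ evalW T w = 1)

/-- The growth function: the number of elements which are values of words of length at most `n`. -/
noncomputable def growth (S : Fin k → G) (n : ℕ) : ℕ :=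
  {g : G | ∃ w : List (Fin k × Bool), w.length ≤ n ∧ evalW S w = g}.ncard

end

/-- `G` preforms `H`: for some `k`, some generating `k`-tuple of `H` is the limit of a sequence of
generating `k`-tuples of `G`. -/
def Preforms (G H : Type) [Group G] [Group H] : Prop :=
  ∃ (k : ℕ) (S : ℕ → Fin k → G) (T : Fin k → H), (∀ n, Generates (S n)) ∧ Generates T ∧
    Converges S T

/-- `f` is subexponential. -/
def Subexp (f : ℕ → ℕ) : Prop :=
  ∀ ε : ℝ, 0 < ε → ∃ N : ℕ, ∀ n, N ≤ n → (f n : ℝ) ≤ Real.exp (ε * n)

/-- `f` is not bounded by a polynomial. -/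
def NonPoly (f : ℕ → ℕ) : Prop := ∀ C d : ℕ, ∃ n : ℕ, C * (n + 1) ^ d < f n

/-- `f ≼ g`: for some `C`, `f n ≤ g (C n)` for all `n`. -/
def Dominated (f g : ℕ → ℕ) : Prop := ∃ C : ℕ, ∀ n, f n ≤ g (C * n)

theorem result : ∃ (G : Type) (_ : Group G), (∃ (k : ℕ) (x : Fin k → G), Generates x) ∧
    ∀ f : ℕ → ℕ, Subexp f →
      -- a family of groups indexed by the infinite binary sequences
      ∃ (H : (ℕ → Bool) → Type) (_ : ∀ x, Group (H x)), (∀ x, Preforms G (H x)) ∧
        -- of intermediate growth, growing at least as fast as `f`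
        (∀ x (k : ℕ) (T : Fin k → H x), Generates T → Subexp (growth T) ∧ NonPoly (growth T) ∧
          ∃ C N : ℕ, ∀ n, N ≤ n → f n ≤ growth T (C * n)) ∧
        -- with pairwise incomparable growth
        ∀ x y, x ≠ y → ∀ (k l : ℕ) (T : Fin k → H x) (U : Fin l → H y), Generates T →
          Generates U → ¬ Dominated (growth T) (growth U) :=
  ⟨MP7daf.Gs, inferInstance, MP7daf.Gs_fg, fun _ hf => MP7daf.exists_incomparable hf⟩

end Pool.Agent.Results.MP_7daf54_al.IncomparableLimits
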